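import Pool.Agent.Lib.MP_defcf3_al.BR.StageT
import Pool.Agent.Lib.MP_defcf3_al.BR.StageE

/-!
Project BRP (MP_defcf3_al): the library BR7 for an arbitrary odd prime ℓ. Everything which does not mention the
prime 7 is cited from BR7 (namespaces BR7, BR7.H..). The heart is for [F(ζ):F] = d.
-/

namespace BR7.H22
end BR7.H22
namespace BR7.H32
end BR7.H32
namespace BR7.H38
end BR7.H38
namespace BR7.H50
end BR7.H50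
namespace BR7.H62
end BR7.H62
namespace BR7.H65
end BR7.H65
namespace BR7.H72
end BR7.H72
namespace BR7.H78
end BR7.H78
namespace BR7.H79
end BR7.H79
namespace BR7.H81
end BR7.H81
namespace BR7.H92
end BR7.H92

open scoped TensorProduct

namespace BRP

universe u v

open BR7

/-- A chosen ℓ-th root. -/
noncomputable def rootp (ℓ : ℕ) {Ω : Type u} [Field Ω] (b : Ωˣ) : Ωˣ := by
  classical
  exact if h : ∃ θ : Ωˣ, θ ^ ℓ = b then h.choose else 1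

section Symbols

variable (ℓ : ℕ) (F : Type u) {Ω : Type u} [Field F] [Field Ω] [Algebra F Ω]

/-- Kummer character of b. -/
noncomputable def kum (ζ b : Ωˣ) : HZ F ζ → ZMod ℓ :=
  fun h => dlog ℓ ζ ((h • rootp ℓ b) * (rootp ℓ b)⁻¹)

/-- The symbol {a,b} in Br(L) = H^2(Gal(Ω/L), Ωˣ). -/
noncomputable def symb (ζ a b : Ωˣ) : H2 (HZ F ζ) Ωˣ := cls (HZ F ζ) Ωˣ (cup ℓ a (kum ℓ F ζ b))

/-- Kummer character of the groupoid attached to an equivariant function. -/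
noncomputable def kumX (ζ : Ωˣ) {X : Type u} [MulAction (HZ F ζ) X] (v : X → Ωˣ) :
    HZ F ζ → X → ZMod ℓ :=
  fun h x => dlog ℓ ζ ((h • rootp ℓ (v x)) * (rootp ℓ (v (h • x)))⁻¹)

/-- The corestriction to Br(L) of the symbol {u,v} over the etale algebra of the finite G-set X. -/
noncomputable def symX (ζ : Ωˣ) {X : Type u} [MulAction (HZ F ζ) X] [Fintype X] (u v : X → Ωˣ) :
    H2 (HZ F ζ) Ωˣ :=
  cls (HZ F ζ) Ωˣ (gcup ℓ u (kumX ℓ F ζ v))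

/-- A symbol with values in an additive group, with the properties used in the heart. The number d is the degree of
F(ζ)/F (the order of k modulo ℓ), its Galois group is generated by the restriction of γ, and γ ζ = ζ^k. -/
structure SymAx (ζ : Ωˣ) (γ : Ω ≃ₐ[F] Ω) (k d : ℕ) {Q : Type u} [AddCommGroup Q]
    (sym : Ωˣ → Ωˣ → Q) (Γ : AddMonoid.End Q) : Prop where
  prim : IsPrimitiveRoot ζ ℓ
  act : γ • ζ = ζ ^ k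
  ord : orderOf (k : ZMod ℓ) = d
  gen : ∀ g : Ω ≃ₐ[F] Ω, ∃ i : ℕ, g • ζ = (γ ^ i) • ζ
  add_left : ∀ a a' b, InL F ζ a → InL F ζ a' → InL F ζ b → sym (a * a') b = sym a b + sym a' b
  add_right : ∀ a b b', InL F ζ a → InL F ζ b → InL F ζ b' → sym a (b * b') = sym a b + sym a b'
  tors : ∀ a b, InL F ζ a → InL F ζ b → ℓ • sym a b = 0
  self : ∀ b, InL F ζ b → sym b b = 0
  stein : ∀ a b : Ωˣ, InL F ζ a → InL F ζ b → (a : Ω) + (b : Ω) = 1 → sym a b = 0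
  gal : ∀ a b, InL F ζ a → InL F ζ b → k • Γ (sym a b) = sym (γ • a) (γ • b)
  triv : ∀ f l, InF F f → InL F ζ l → ∑ i ∈ Finset.range d, (Γ ^ i) (sym f l) = 0

end Symbols

/-- The heart for [F(ζ):F] = d. -/
def HeartStatement (ℓ d : ℕ) [Fact ℓ.Prime] [Fact (Odd ℓ)] : Prop :=
  ∀ (F Ω : Type u) [Field F] [Field Ω] [Algebra F Ω] [IsGalois F Ω] [IsSepClosed Ω] (ζ : Ωˣ) (γ : Ω ≃ₐ[F] Ω)
    (k : ℕ) (Q : Type u) [AddCommGroup Q] (sym : Ωˣ → Ωˣ → Q) (Γ : AddMonoid.End Q),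
    SymAx ℓ F ζ γ k d sym Γ → NormZero F ζ d sym Γ

/-- A compatible system of primitive roots of unity of order ℓ^(n+1) starting with ζ. -/
def RootSys (ℓ : ℕ) {Ω : Type u} [Field Ω] (ζ : Ωˣ) (η : ℕ → Ωˣ) : Prop :=
  η 0 = ζ ∧ (∀ n, IsPrimitiveRoot (η n) (ℓ ^ (n + 1))) ∧ ∀ n, η (n + 1) ^ ℓ = η n

/-- The Brauer group of F contains a quasicyclic ℓ-group (equivalently, a nonzero divisible ℓ-primary subgroup). -/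
def HasQuasi (ℓ : ℕ) (F Ω : Type u) [Field F] [Field Ω] [Algebra F Ω] : Prop :=
  ∃ y : ℕ → (Ω ≃ₐ[F] Ω) → (Ω ≃ₐ[F] Ω) → Ωˣ, (∀ n, y n ∈ Z2 (Ω ≃ₐ[F] Ω) Ωˣ) ∧
    y 0 ∉ B2 (Ω ≃ₐ[F] Ω) Ωˣ ∧ y 0 ^ ℓ ∈ B2 (Ω ≃ₐ[F] Ω) Ωˣ ∧
    ∀ n, y n * (y (n + 1) ^ ℓ)⁻¹ ∈ B2 (Ω ≃ₐ[F] Ω) Ωˣ

/-- D5. Properties of Kummer characters. -/
def KumStatement (ℓ : ℕ) [Fact ℓ.Prime] [Fact (Odd ℓ)] : Prop :=
  ∀ (F Ω : Type u) [Field F] [Field Ω] [Algebra F Ω] [IsGalois F Ω] [IsSepClosed Ω] (ζ : Ωˣ),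
    IsPrimitiveRoot ζ ℓ →
    (∀ b : Ωˣ, (rootp ℓ b) ^ ℓ = b) ∧
    (∀ b θ : Ωˣ, InL F ζ b → θ ^ ℓ = b → ∀ h : HZ F ζ, h • θ = ζ ^ (kum ℓ F ζ b h).val * θ) ∧
    (∀ b : Ωˣ, InL F ζ b → ∀ g h, kum ℓ F ζ b (g * h) = kum ℓ F ζ b g + kum ℓ F ζ b h) ∧
    (∀ b : Ωˣ, InL F ζ b → IsLocallyConstant (kum ℓ F ζ b)) ∧
    (∀ b b' : Ωˣ, InL F ζ b → InL F ζ b' → ∀ h, kum ℓ F ζ (b * b') h = kum ℓ F ζ b h + kum ℓ F ζ b' h) ∧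
    (∀ (γ : Ω ≃ₐ[F] Ω) (k : ℕ), γ • ζ = ζ ^ k → ∀ b : Ωˣ, InL F ζ b → InL F ζ (γ • b) ∧
      ∀ (h h' : HZ F ζ), (h' : Ω ≃ₐ[F] Ω) = γ⁻¹ * h * γ → (k : ZMod ℓ) * kum ℓ F ζ b h' = kum ℓ F ζ (γ • b) h)

/-- D9. The index of N in U, where U is the kernel of a character and N the intersection with the
stabilizer of ζ, is prime to ℓ; everything is open of finite index. -/
def IndexStatement (ℓ : ℕ) [Fact ℓ.Prime] [Fact (Odd ℓ)] : Prop :=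
  ∀ (F Ω : Type u) [Field F] [Field Ω] [Algebra F Ω] [IsGalois F Ω] (ζ : Ωˣ),
    IsPrimitiveRoot ζ ℓ → ∀ U : Subgroup (Ω ≃ₐ[F] Ω), IsOpen (U : Set (Ω ≃ₐ[F] Ω)) →
    IsOpen ((U ⊓ HZ F ζ : Subgroup (Ω ≃ₐ[F] Ω)) : Set (Ω ≃ₐ[F] Ω)) ∧
    (U ⊓ HZ F ζ).FiniteIndex ∧ Nat.Coprime ((U ⊓ HZ F ζ).relIndex U) ℓ

/-- E1. Bilinearity and torsion of symbols. -/
def SymAddStatement (ℓ : ℕ) [Fact ℓ.Prime] [Fact (Odd ℓ)] : Prop :=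
  ∀ (F Ω : Type u) [Field F] [Field Ω] [Algebra F Ω] [IsGalois F Ω] [IsSepClosed Ω] (ζ : Ωˣ),
    IsPrimitiveRoot ζ ℓ →
    (∀ a b : Ωˣ, InL F ζ a → InL F ζ b → cup ℓ a (kum ℓ F ζ b) ∈ Z2 (HZ F ζ) Ωˣ) ∧
    (∀ a a' b : Ωˣ, InL F ζ a → InL F ζ a' → InL F ζ b →
      symb ℓ F ζ (a * a') b = symb ℓ F ζ a b * symb ℓ F ζ a' b) ∧
    (∀ a b b' : Ωˣ, InL F ζ a → InL F ζ b → InL F ζ b' →
      symb ℓ F ζ a (b * b') = symb ℓ F ζ a b * symb ℓ F ζ a b') ∧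
    (∀ a b : Ωˣ, InL F ζ a → InL F ζ b → symb ℓ F ζ a b ^ ℓ = 1)

/-- E2. Self symbols and the Steinberg relation. -/
def SymSteinStatement (ℓ : ℕ) [Fact ℓ.Prime] [Fact (Odd ℓ)] : Prop :=
  ∀ (F Ω : Type u) [Field F] [Field Ω] [Algebra F Ω] [IsGalois F Ω] [IsSepClosed Ω] (ζ : Ωˣ),
    IsPrimitiveRoot ζ ℓ →
    (∀ b : Ωˣ, InL F ζ b → symb ℓ F ζ b b = 1) ∧
    (∀ a b : Ωˣ, InL F ζ a → InL F ζ b → (a : Ω) + (b : Ω) = 1 → symb ℓ F ζ a b = 1)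

/-- E5. Action of γ on symbols. -/
def SymGalStatement (ℓ : ℕ) [Fact ℓ.Prime] [Fact (Odd ℓ)] : Prop :=
  ∀ (F Ω : Type u) [Field F] [Field Ω] [Algebra F Ω] [IsGalois F Ω] [IsSepClosed Ω] (ζ : Ωˣ),
    IsPrimitiveRoot ζ ℓ → ∀ (γ : Ω ≃ₐ[F] Ω) (k : ℕ) (hH : ∀ h ∈ HZ F ζ, γ⁻¹ * h * γ ∈ HZ F ζ),
    γ • ζ = ζ ^ k → ∀ a b : Ωˣ, InL F ζ a → InL F ζ b →
    cls (HZ F ζ) Ωˣ (conjC (HZ F ζ) γ hH (cup ℓ a (kum ℓ F ζ b))) ^ k = symb ℓ F ζ (γ • a) (γ • b)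

/-- T4. Sylow step: an open subgroup of index ℓ becomes the kernel of a character after passing to an open
subgroup of index prime to ℓ. -/
def SylStatement (ℓ : ℕ) [Fact ℓ.Prime] [Fact (Odd ℓ)] : Prop :=
  ∀ (G : Type u) [Group G] [TopologicalSpace G] [IsTopologicalGroup G] (H : Subgroup G),
    IsOpen (H : Set G) → H.index = ℓ →
    ∃ (P : Subgroup G) (χ : P → ZMod ℓ), IsOpen (P : Set G) ∧ Nat.Coprime P.index ℓ ∧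
      (∀ g h, χ (g * h) = χ g + χ h) ∧ IsLocallyConstant χ ∧ ∀ g : P, χ g = 0 → (g : G) ∈ H

/-- T5. Properties of the Kummer character of the groupoid. -/
def KumXStatement (ℓ : ℕ) [Fact ℓ.Prime] [Fact (Odd ℓ)] : Prop :=
  ∀ (F Ω : Type u) [Field F] [Field Ω] [Algebra F Ω] [IsGalois F Ω] [IsSepClosed Ω] (ζ : Ωˣ),
    IsPrimitiveRoot ζ ℓ → ∀ (X : Type u) [MulAction (HZ F ζ) X], OpenStab (HZ F ζ) X →
    ∀ v : X → Ωˣ, EqvF (G := HZ F ζ) v →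
    GChar ℓ (kumX ℓ F ζ v) ∧ (∀ x, IsLocallyConstant (fun h => kumX ℓ F ζ v h x)) ∧
    (∀ θ : X → Ωˣ, (∀ x, θ x ^ ℓ = v x) → ∀ ψ : HZ F ζ → X → ZMod ℓ,
      (∀ h x, h • θ x = ζ ^ (ψ h x).val * θ (h • x)) →
      ∃ ρ : X → ZMod ℓ, ∀ h x, ψ h x = kumX ℓ F ζ v h x + (ρ (h • x) - ρ x))

/-- T6. Bilinearity and torsion of symbols over G-sets. -/
def SymXAddStatement (ℓ : ℕ) [Fact ℓ.Prime] [Fact (Odd ℓ)] : Prop :=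
  ∀ (F Ω : Type u) [Field F] [Field Ω] [Algebra F Ω] [IsGalois F Ω] [IsSepClosed Ω] (ζ : Ωˣ),
    IsPrimitiveRoot ζ ℓ → ∀ (X : Type u) [MulAction (HZ F ζ) X] [Fintype X], OpenStab (HZ F ζ) X →
    (∀ u v : X → Ωˣ, EqvF (G := HZ F ζ) u → EqvF (G := HZ F ζ) v →
      gcup ℓ u (kumX ℓ F ζ v) ∈ Z2 (HZ F ζ) Ωˣ ∧ symX ℓ F ζ u v ^ ℓ = 1) ∧
    (∀ u u' v : X → Ωˣ, EqvF (G := HZ F ζ) u → EqvF (G := HZ F ζ) u' → EqvF (G := HZ F ζ) v →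
      symX ℓ F ζ (u * u') v = symX ℓ F ζ u v * symX ℓ F ζ u' v) ∧
    (∀ u v v' : X → Ωˣ, EqvF (G := HZ F ζ) u → EqvF (G := HZ F ζ) v → EqvF (G := HZ F ζ) v' →
      symX ℓ F ζ u (v * v') = symX ℓ F ζ u v * symX ℓ F ζ u v')

/-- T7. Projection formula and comparison with the symbols over the base. -/
def SymXPushStatement (ℓ : ℕ) [Fact ℓ.Prime] [Fact (Odd ℓ)] : Prop :=
  ∀ (F Ω : Type u) [Field F] [Field Ω] [Algebra F Ω] [IsGalois F Ω] [IsSepClosed Ω] (ζ : Ωˣ),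
    IsPrimitiveRoot ζ ℓ → (∀ (X Y : Type u) [MulAction (HZ F ζ) X] [Fintype X]
      [MulAction (HZ F ζ) Y] [Fintype Y] [DecidableEq Y] (π : X → Y),
      (∀ (h : HZ F ζ) (x : X), π (h • x) = h • π x) → ∀ (u : X → Ωˣ) (v : Y → Ωˣ),
      symX ℓ F ζ u (v ∘ π) = symX ℓ F ζ (fun y => ∏ x ∈ Finset.univ.filter (fun x => π x = y), u x) v) ∧
    (∀ (X : Type u) [MulAction (HZ F ζ) X] [Fintype X] (x0 : X), (∀ x : X, x = x0) → ∀ a b : Ωˣ,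
      symX ℓ F ζ (fun _ : X => a) (fun _ => b) = symb ℓ F ζ a b)

/-- T8. Self symbols and the Steinberg relation over G-sets. Proof: pass to the G-set Y of pairs (x,θ) with
θ^ℓ = v x; u x is the product of the θ (self symbols), respectively of the 1 - θ (Steinberg); by the projection
formula the symbol is {w, θ^ℓ} over Y, which vanishes. -/
def SymXSteinStatement (ℓ : ℕ) [Fact ℓ.Prime] [Fact (Odd ℓ)] : Prop :=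
  ∀ (F Ω : Type u) [Field F] [Field Ω] [Algebra F Ω] [IsGalois F Ω] [IsSepClosed Ω] (ζ : Ωˣ),
    IsPrimitiveRoot ζ ℓ → ∀ (X : Type u) [MulAction (HZ F ζ) X] [Fintype X], OpenStab (HZ F ζ) X →
    (∀ v : X → Ωˣ, EqvF (G := HZ F ζ) v → symX ℓ F ζ v v = 1) ∧
    (∀ u v : X → Ωˣ, EqvF (G := HZ F ζ) u → EqvF (G := HZ F ζ) v → (∀ x, (u x : Ω) + (v x : Ω) = 1) →
      symX ℓ F ζ u v = 1)

/-- T9. The identity {α-β,α} + {α,β} = {α-β,β}. -/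
def SymXIdentStatement (ℓ : ℕ) [Fact ℓ.Prime] [Fact (Odd ℓ)] : Prop :=
  ∀ (F Ω : Type u) [Field F] [Field Ω] [Algebra F Ω] [IsGalois F Ω] [IsSepClosed Ω] (ζ : Ωˣ),
    IsPrimitiveRoot ζ ℓ → ∀ (X : Type u) [MulAction (HZ F ζ) X] [Fintype X], OpenStab (HZ F ζ) X →
    (∀ u v : X → Ωˣ, EqvF (G := HZ F ζ) u → EqvF (G := HZ F ζ) v → symX ℓ F ζ u v * symX ℓ F ζ v u = 1) ∧
    (∀ α β w : X → Ωˣ, EqvF (G := HZ F ζ) α → EqvF (G := HZ F ζ) β → EqvF (G := HZ F ζ) w →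
      (∀ x, (w x : Ω) = (α x : Ω) - (β x : Ω)) → symX ℓ F ζ w α * symX ℓ F ζ α β = symX ℓ F ζ w β)

/-- T9b. The same identity with invariant exponents. Proof: apply T9 to the G-set of pairs (x,j), j < m x, and the
projection formula. -/
def SymXMulStatement (ℓ : ℕ) [Fact ℓ.Prime] [Fact (Odd ℓ)] : Prop :=
  ∀ (F Ω : Type u) [Field F] [Field Ω] [Algebra F Ω] [IsGalois F Ω] [IsSepClosed Ω] (ζ : Ωˣ),
    IsPrimitiveRoot ζ ℓ → ∀ (X : Type u) [MulAction (HZ F ζ) X] [Fintype X], OpenStab (HZ F ζ) X →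
    ∀ α β w : X → Ωˣ, EqvF (G := HZ F ζ) α → EqvF (G := HZ F ζ) β → EqvF (G := HZ F ζ) w →
    ∀ m : X → ℕ, (∀ (h : HZ F ζ) (x : X), m (h • x) = m x) →
    (∀ x, (w x : Ω) = (α x : Ω) - (β x : Ω)) →
    symX ℓ F ζ (fun x => w x ^ m x) α * symX ℓ F ζ (fun x => α x ^ m x) β = symX ℓ F ζ (fun x => w x ^ m x) β

/-- T10. Interpolation: u is a polynomial function of v of degree smaller than the cardinality of X; after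
raising everything to a power Q of the exponential characteristic the polynomial splits over Ω. -/
def LagStatement (ℓ : ℕ) [Fact ℓ.Prime] [Fact (Odd ℓ)] : Prop :=
  ∀ (F Ω : Type u) [Field F] [Field Ω] [Algebra F Ω] [IsGalois F Ω] [IsSepClosed Ω] (ζ : Ωˣ),
    IsPrimitiveRoot ζ ℓ → ∀ (X : Type u) [MulAction (HZ F ζ) X] [Fintype X] [Nonempty X] (u v : X → Ωˣ),
    EqvF (G := HZ F ζ) u → EqvF (G := HZ F ζ) v → Function.Injective v →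
    ∃ (Q : ℕ) (c : Ωˣ) (k : ℕ) (R : Type u) (_ : MulAction (HZ F ζ) R) (_ : Fintype R) (β : R → Ωˣ)
      (m : R → ℕ), Nat.Coprime Q ℓ ∧ OpenStab (HZ F ζ) R ∧ InL F ζ c ∧ EqvF (G := HZ F ζ) β ∧
      (∀ (h : HZ F ζ) (r : R), m (h • r) = m r) ∧ (∀ r, m r ≠ 0) ∧ Fintype.card R < Fintype.card X ∧
      ∀ x, ((u x ^ Q : Ωˣ) : Ω) = c * ((v x ^ Q : Ωˣ) : Ω) ^ k * ∏ r, (((v x ^ Q : Ωˣ) : Ω) - β r) ^ m r

/-- T11. Rosset-Tate: corestrictions of symbols are products of symbols. Induction on the cardinality of X. If v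
is not injective, use the projection formula for X → v(X). If v is injective, use LAG: up to factors
{c,..} and {v,v} the Q^2-th power of the symbol is the symbol of (v^Q-β)^m and v^Q over X x R, by IDENT it is a product
of symbols pulled back from R, and R is smaller. -/
def RTStatement (ℓ : ℕ) [Fact ℓ.Prime] [Fact (Odd ℓ)] : Prop :=
  ∀ (F Ω : Type u) [Field F] [Field Ω] [Algebra F Ω] [IsGalois F Ω] [IsSepClosed Ω] (ζ : Ωˣ),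
    IsPrimitiveRoot ζ ℓ → ∀ (X : Type u) [MulAction (HZ F ζ) X] [Fintype X], OpenStab (HZ F ζ) X →
    ∀ u v : X → Ωˣ, EqvF (G := HZ F ζ) u → EqvF (G := HZ F ζ) v →
    symX ℓ F ζ u v ∈ Subgroup.closure {s | ∃ a b : Ωˣ, InL F ζ a ∧ InL F ζ b ∧ s = symb ℓ F ζ a b}

/-- T12. Kummer theory for an open subgroup of the stabilizer of ζ. -/
def KumSurjStatement (ℓ : ℕ) [Fact ℓ.Prime] [Fact (Odd ℓ)] : Prop :=
  ∀ (F Ω : Type u) [Field F] [Field Ω] [Algebra F Ω] [IsGalois F Ω] [IsSepClosed Ω] (ζ : Ωˣ),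
    IsPrimitiveRoot ζ ℓ → ∀ (P : Subgroup (HZ F ζ)), IsOpen (P : Set (HZ F ζ)) → ∀ χ : P → ZMod ℓ,
    (∀ g h, χ (g * h) = χ g + χ h) → IsLocallyConstant χ →
    ∃ θ : Ωˣ, ∀ g : P, g • θ = ζ ^ (χ g).val * θ

/-- T13. A class over F which is split by an open subgroup of index ℓ becomes (up to a power prime to ℓ) a product
of symbols over L. -/
def SevenSymStatement (ℓ : ℕ) [Fact ℓ.Prime] [Fact (Odd ℓ)] : Prop :=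
  ∀ (F Ω : Type u) [Field F] [Field Ω] [Algebra F Ω] [IsGalois F Ω] [IsSepClosed Ω] (ζ : Ωˣ),
    IsPrimitiveRoot ζ ℓ → ∀ f ∈ Z2 (Ω ≃ₐ[F] Ω) Ωˣ, ∀ H : Subgroup (Ω ≃ₐ[F] Ω),
    IsOpen (H : Set (Ω ≃ₐ[F] Ω)) → H.index = ℓ → (fun g h : H => f g h) ∈ B2 H Ωˣ →
    ∃ m : ℕ, Nat.Coprime m ℓ ∧ cls (HZ F ζ) Ωˣ (fun g h : HZ F ζ => f g h) ^ m ∈
      Subgroup.closure {s | ∃ a b : Ωˣ, InL F ζ a ∧ InL F ζ b ∧ s = symb ℓ F ζ a b}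

/-- T14. Variant of TRIV without any assumption: the norm to F of a symbol with one entry in F is a cyclic class. -/
def TrivCStatement (ℓ : ℕ) [Fact ℓ.Prime] [Fact (Odd ℓ)] : Prop :=
  ∀ (F Ω : Type u) [Field F] [Field Ω] [Algebra F Ω] [IsGalois F Ω] [IsSepClosed Ω] (ζ : Ωˣ),
    IsPrimitiveRoot ζ ℓ →
    ∀ (γ : Ω ≃ₐ[F] Ω) (d : ℕ) (hH : ∀ i : ℕ, ∀ h ∈ HZ F ζ, (γ ^ i)⁻¹ * h * γ ^ i ∈ HZ F ζ),
    (∀ g : Ω ≃ₐ[F] Ω, ∃! i : Fin d, g • ζ = (γ ^ (i : ℕ)) • ζ) →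
    ∀ f l : Ωˣ, InF F f → InL F ζ l →
    ∃ χ : (Ω ≃ₐ[F] Ω) → ZMod ℓ, (∀ g h, χ (g * h) = χ g + χ h) ∧ IsLocallyConstant χ ∧
      (∏ i : Fin d, conjC (HZ F ζ) (γ ^ (i : ℕ)) (hH i) (cup ℓ f (kum ℓ F ζ l))) *
        (cup ℓ f (fun h : HZ F ζ => χ h))⁻¹ ∈ B2 (HZ F ζ) Ωˣ

/-- T15. Every field: a class over F which becomes a product of symbols over L is, over L, a product of cyclic
classes defined over F. Proof: as MAIN, in the quotient of H2(HZ) by the cyclic classes. -/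
def MainCStatement (ℓ d : ℕ) [Fact ℓ.Prime] [Fact (Odd ℓ)] : Prop :=
  ∀ (F Ω : Type u) [Field F] [Field Ω] [Algebra F Ω] [IsGalois F Ω] [IsSepClosed Ω] (ζ : Ωˣ),
    IsPrimitiveRoot ζ ℓ → (HZ F ζ).index = d → ∀ x ∈ Z2 (Ω ≃ₐ[F] Ω) Ωˣ,
    cls (HZ F ζ) Ωˣ (fun g h : HZ F ζ => x g h) ∈
      Subgroup.closure {s | ∃ a b : Ωˣ, InL F ζ a ∧ InL F ζ b ∧ s = symb ℓ F ζ a b} →
    cls (HZ F ζ) Ωˣ (fun g h : HZ F ζ => x g h) ∈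
      Subgroup.closure {s | ∃ (a : Ωˣ) (χ : (Ω ≃ₐ[F] Ω) → ZMod ℓ), InF F a ∧
        (∀ g h, χ (g * h) = χ g + χ h) ∧ IsLocallyConstant χ ∧
        s = cls (HZ F ζ) Ωˣ (cup ℓ a (fun h : HZ F ζ => χ h))}

/-- T16. Cohomological Theorem C. -/
def CohCStatement (ℓ d : ℕ) [Fact ℓ.Prime] [Fact (Odd ℓ)] : Prop :=
  ∀ (F Ω : Type u) [Field F] [Field Ω] [Algebra F Ω] [IsGalois F Ω] [IsSepClosed Ω] (ζ : Ωˣ),
    IsPrimitiveRoot ζ ℓ → (HZ F ζ).index = d →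
    ∀ f ∈ Z2 (Ω ≃ₐ[F] Ω) Ωˣ, ∀ H : Subgroup (Ω ≃ₐ[F] Ω),
    IsOpen (H : Set (Ω ≃ₐ[F] Ω)) → H.index = ℓ → (fun g h : H => f g h) ∈ B2 H Ωˣ →
    cls (Ω ≃ₐ[F] Ω) Ωˣ f ∈ Subgroup.closure {s | ∃ (a : Ωˣ) (χ : (Ω ≃ₐ[F] Ω) → ZMod ℓ), InF F a ∧
        (∀ g h, χ (g * h) = χ g + χ h) ∧ IsLocallyConstant χ ∧ s = cls (Ω ≃ₐ[F] Ω) Ωˣ (cup ℓ a χ)}

/-- T17. Theorem C for every class of order ℓ which becomes a product of symbols over L. -/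
def CohSStatement (ℓ d : ℕ) [Fact ℓ.Prime] [Fact (Odd ℓ)] : Prop :=
  ∀ (F Ω : Type u) [Field F] [Field Ω] [Algebra F Ω] [IsGalois F Ω] [IsSepClosed Ω] (ζ : Ωˣ),
    IsPrimitiveRoot ζ ℓ → (HZ F ζ).index = d → ∀ x ∈ Z2 (Ω ≃ₐ[F] Ω) Ωˣ, cls (Ω ≃ₐ[F] Ω) Ωˣ x ^ ℓ = 1 →
    cls (HZ F ζ) Ωˣ (fun g h : HZ F ζ => x g h) ∈
      Subgroup.closure {s | ∃ a b : Ωˣ, InL F ζ a ∧ InL F ζ b ∧ s = symb ℓ F ζ a b} →
    cls (Ω ≃ₐ[F] Ω) Ωˣ x ∈ Subgroup.closure {s | ∃ (a : Ωˣ) (χ : (Ω ≃ₐ[F] Ω) → ZMod ℓ), InF F a ∧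
        (∀ g h, χ (g * h) = χ g + χ h) ∧ IsLocallyConstant χ ∧ s = cls (Ω ≃ₐ[F] Ω) Ωˣ (cup ℓ a χ)}

/-- I15. A central division algebra of dimension ℓ ^ 2 is split by an open subgroup of index ℓ. -/
def DivSevenStatement (ℓ : ℕ) [Fact ℓ.Prime] [Fact (Odd ℓ)] : Prop :=
  ∀ (F Ω : Type u) [Field F] [Field Ω] [Algebra F Ω] [IsGalois F Ω] [IsSepClosed Ω], ((ℓ : ℕ) : F) ≠ 0 →
    ∀ (D : Type u) [DivisionRing D] [Algebra F D] [Algebra.IsCentral F D]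
    (f : (Ω ≃ₐ[F] Ω) → (Ω ≃ₐ[F] Ω) → Ωˣ), RepData F Ω D (Fin ℓ) f →
    ∃ H : Subgroup (Ω ≃ₐ[F] Ω), IsOpen (H : Set (Ω ≃ₐ[F] Ω)) ∧ H.index = ℓ ∧
      (fun g h : H => f g h) ∈ B2 H Ωˣ

/-- I16. Cyclic algebras: the factor set (a,χ) with χ not trivial comes from a central simple algebra of dimension
ℓ ^ 2 containing a Galois extension of degree ℓ. -/
def CycAlgStatement (ℓ : ℕ) [Fact ℓ.Prime] [Fact (Odd ℓ)] : Prop :=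
  ∀ (F Ω : Type u) [Field F] [Field Ω] [Algebra F Ω] [IsGalois F Ω] (a : Ωˣ)
    (χ : (Ω ≃ₐ[F] Ω) → ZMod ℓ), InF F a → (∀ g h, χ (g * h) = χ g + χ h) → IsLocallyConstant χ →
    (∃ g, χ g ≠ 0) →
    ∃ (A : Type u) (_ : Ring A) (_ : Algebra F A), Nonempty (RepData F Ω A (Fin ℓ) (cup ℓ a χ)) ∧
      ∃ (K : Type u) (_ : Field K) (_ : Algebra F K), IsGalois F K ∧ Module.finrank F K = ℓ ∧
        Nonempty (K →ₐ[F] A)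

/-- I20. Every central simple algebra of dimension ℓ ^ 2 is a matrix algebra over F or a division algebra. -/
def DegSevenStatement (ℓ : ℕ) [Fact ℓ.Prime] [Fact (Odd ℓ)] : Prop :=
  ∀ (F : Type u) [Field F] (A : Type u) [Ring A] [Algebra F A] [Algebra.IsCentral F A] [IsSimpleRing A],
    Module.finrank F A = ℓ ^ 2 →
    Nonempty (A ≃ₐ[F] Matrix (Fin ℓ) (Fin ℓ) F) ∨ ∀ a : A, a ≠ 0 → IsUnit a

/-- D5. Roots of unity and cyclotomic characters. -/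
def EtaStatement (ℓ : ℕ) [Fact ℓ.Prime] [Fact (Odd ℓ)] : Prop :=
  ∀ (F Ω : Type u) [Field F] [Field Ω] [Algebra F Ω] [IsGalois F Ω] [IsSepClosed Ω] (ζ : Ωˣ),
    IsPrimitiveRoot ζ ℓ → ∃ (η : ℕ → Ωˣ) (X : (n : ℕ) → (Ω ≃ₐ[F] Ω) → ZMod (ℓ ^ n)), RootSys ℓ ζ η ∧
      (∀ n g h, X n (g * h) = X n g + X n h) ∧ (∀ n, IsLocallyConstant (X n)) ∧
      (∀ n g, ZMod.castHom (pow_dvd_pow ℓ (Nat.le_succ n)) (ZMod (ℓ ^ n)) (X (n + 1) g) = X n g) ∧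
      (∀ n g, g • η n = η n ↔ g • ζ = ζ ∧ X n g = 0) ∧
      (∀ n, ∃ σ : Ω ≃ₐ[F] Ω, ∀ g : Ω ≃ₐ[F] Ω, ∃ i : ℕ, ((σ ^ i)⁻¹ * g) • η n = η n)

/-- D6. The tower of characters: a character of order ℓ of G extends to a compatible system of characters of the
stabilizers of the roots of unity, on which G acts through multiplication by residues congruent to 1 modulo ℓ. -/
def TowerStatement (ℓ : ℕ) [Fact ℓ.Prime] [Fact (Odd ℓ)] : Prop :=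
  ∀ (F Ω : Type u) [Field F] [Field Ω] [Algebra F Ω] [IsGalois F Ω] [IsSepClosed Ω] (ζ : Ωˣ),
    IsPrimitiveRoot ζ ℓ → ∀ η : ℕ → Ωˣ, RootSys ℓ ζ η → ∀ χ : (Ω ≃ₐ[F] Ω) → ZMod ℓ,
    (∀ g h, χ (g * h) = χ g + χ h) → IsLocallyConstant χ →
    ∃ ψ : (n : ℕ) → (Ω ≃ₐ[F] Ω) → ZMod (ℓ ^ (n + 1)),
      (∀ n, NChar (MulAction.stabilizer (Ω ≃ₐ[F] Ω) (η n)) (ℓ ^ (n + 1)) (ψ n)) ∧
      (∀ n g, g • η (n + 1) = η (n + 1) →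
        ZMod.castHom (pow_dvd_pow ℓ (Nat.le_succ (n + 1))) (ZMod (ℓ ^ (n + 1))) (ψ (n + 1) g) = ψ n g) ∧
      (∀ n (σ : Ω ≃ₐ[F] Ω), ∃ r : ℕ, r % ℓ = 1 ∧ ∀ h, h • η n = η n →
        ψ n (σ * h * σ⁻¹) = (r : ZMod (ℓ ^ (n + 1))) * ψ n h) ∧
      (∀ g, g • ζ = ζ → (ψ 0 g).val = (χ g).val)

/-- D7. If (a, cyclotomic character) does not vanish then there is a quasicyclic subgroup. -/
def QuasiAStatement (ℓ : ℕ) [Fact ℓ.Prime] [Fact (Odd ℓ)] : Prop :=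
  ∀ (F Ω : Type u) [Field F] [Field Ω] [Algebra F Ω] [IsGalois F Ω]
    (X : (n : ℕ) → (Ω ≃ₐ[F] Ω) → ZMod (ℓ ^ n)),
    (∀ n g h, X n (g * h) = X n g + X n h) → (∀ n, IsLocallyConstant (X n)) →
    (∀ n g, ZMod.castHom (pow_dvd_pow ℓ (Nat.le_succ n)) (ZMod (ℓ ^ n)) (X (n + 1) g) = X n g) →
    ∀ (a : Ωˣ) (n : ℕ), InF F a → cup (ℓ ^ n) a (X n) ∉ B2 (Ω ≃ₐ[F] Ω) Ωˣ → HasQuasi ℓ F Ω

/-- D8. A subgroup of H2 generated by ℓ-primary elements each of which is an ℓ-th power of an element of the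
subgroup, and not trivial, contains a quasicyclic group. -/
def QuasiBStatement (ℓ : ℕ) [Fact ℓ.Prime] [Fact (Odd ℓ)] : Prop :=
  ∀ (F Ω : Type u) [Field F] [Field Ω] [Algebra F Ω] (D : Subgroup (H2 (Ω ≃ₐ[F] Ω) Ωˣ)),
    D ≠ ⊥ → (∀ x ∈ D, ∃ j : ℕ, x ^ (ℓ ^ j) = 1) → (∀ x ∈ D, ∃ y ∈ D, y ^ ℓ = x) → HasQuasi ℓ F Ω

/-- D9. Merkurjev's theorem: a nonzero cyclic class of degree ℓ forces a quasicyclic subgroup. -/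
def CycDivStatement (ℓ : ℕ) [Fact ℓ.Prime] [Fact (Odd ℓ)] : Prop :=
  ∀ (F Ω : Type u) [Field F] [Field Ω] [Algebra F Ω] [IsGalois F Ω] [IsSepClosed Ω] (ζ : Ωˣ),
    IsPrimitiveRoot ζ ℓ → ∀ (a : Ωˣ) (χ : (Ω ≃ₐ[F] Ω) → ZMod ℓ), InF F a →
    (∀ g h, χ (g * h) = χ g + χ h) → IsLocallyConstant χ → cup ℓ a χ ∉ B2 (Ω ≃ₐ[F] Ω) Ωˣ → HasQuasi ℓ F Ω

/-- E1. The factor set of an algebra of degree ℓ containing a Galois extension of degree ℓ is a cup product. -/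
def CycFacStatement (ℓ : ℕ) [Fact ℓ.Prime] [Fact (Odd ℓ)] : Prop :=
  ∀ (F Ω : Type u) [Field F] [Field Ω] [Algebra F Ω] [IsGalois F Ω] [IsSepClosed Ω] (B : Type u) [Ring B]
    [Algebra F B] (f : (Ω ≃ₐ[F] Ω) → (Ω ≃ₐ[F] Ω) → Ωˣ), RepData F Ω B (Fin ℓ) f →
    ∀ (K : Type u) [Field K] [Algebra F K], IsGalois F K → Module.finrank F K = ℓ → (K →ₐ[F] B) →
    ∃ (a : Ωˣ) (χ : (Ω ≃ₐ[F] Ω) → ZMod ℓ), InF F a ∧ (∀ g h, χ (g * h) = χ g + χ h) ∧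
      IsLocallyConstant χ ∧ f * (cup ℓ a χ)⁻¹ ∈ B2 (Ω ≃ₐ[F] Ω) Ωˣ

/-- E4. Translation between the Galois group of Ω over L = F(ζ) and the stabilizer of ζ. -/
def LTransStatement (ℓ : ℕ) [Fact ℓ.Prime] [Fact (Odd ℓ)] : Prop :=
  ∀ (F L Ω : Type u) [Field F] [Field L] [Field Ω] [Algebra F L] [Algebra L Ω] [Algebra F Ω]
    [IsScalarTower F L Ω] [IsGalois F Ω] [IsSepClosed Ω] (ζ : Ωˣ), IsPrimitiveRoot ζ ℓ →
    IsCyclotomicExtension {ℓ} F L → ∀ f ∈ Z2 (Ω ≃ₐ[F] Ω) Ωˣ,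
    ∀ (k : ℕ) (a : Fin k → Ωˣ) (χ : Fin k → (Ω ≃ₐ[L] Ω) → ZMod ℓ), (∀ i, InF L (a i)) →
    (∀ i g h, χ i (g * h) = χ i g + χ i h) → (∀ i, IsLocallyConstant (χ i)) →
    (fun g h : Ω ≃ₐ[L] Ω => f (g.restrictScalars F) (h.restrictScalars F)) *
      (∏ i, cup ℓ (a i) (χ i))⁻¹ ∈ B2 (Ω ≃ₐ[L] Ω) Ωˣ →
    cls (HZ F ζ) Ωˣ (fun g h : HZ F ζ => f g h) ∈
      Subgroup.closure {s | ∃ a b : Ωˣ, InL F ζ a ∧ InL F ζ b ∧ s = symb ℓ F ζ a b}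

/-- E5. A quasicyclic subgroup in terms of algebras. -/
def SeqStatement (ℓ : ℕ) [Fact ℓ.Prime] [Fact (Odd ℓ)] : Prop :=
  ∀ (F : Type u) [Field F], HasQuasi ℓ F (SeparableClosure F) →
    ∃ (A : ℕ → Type u) (_ : ∀ n, Ring (A n)) (_ : ∀ n, Algebra F (A n)),
      (∀ n, Algebra.IsCentral F (A n) ∧ IsSimpleRing (A n) ∧ FiniteDimensional F (A n)) ∧
      (∀ m : ℕ, IsEmpty (A 0 ≃ₐ[F] Matrix (Fin m) (Fin m) F)) ∧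
      (∃ m : ℕ, Nonempty ((⨂[F] (_ : Fin ℓ), A 0) ≃ₐ[F] Matrix (Fin m) (Fin m) F)) ∧
      ∀ n, ∃ r s : ℕ, r ≠ 0 ∧ s ≠ 0 ∧
        Nonempty (Matrix (Fin r) (Fin r) (⨂[F] (_ : Fin ℓ), A (n + 1)) ≃ₐ[F] Matrix (Fin s) (Fin s) (A n))

end BRP
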